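import Pool.Agent.Helper95.HS.Stmts
import Pool.Agent.Helper47.LN.NB

/-!
# Row NBX: the number of electrons near the nuclei and the field energy, explicit powers of `d`
-/

set_option autoImplicit false

namespace Pool.Agent.Helper47.HS

open MeasureTheory Filter Topology
open Pool.Agent.Helper95.PW Pool.Agent.Helper95.LN Pool.Agent.Helper95.HS
open Pool.Agent.Helper47.LN

theorem nbx_scale {d : ℝ} (hd : 0 < d) (w : R3) :
    nbF (13 / 8 * d) (19 / 10 * d) w = nbF (13 / 8) (19 / 10) (d⁻¹ • w) := by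
  unfold nbF
  congr 1
  simp only [Pi.smul_apply, smul_eq_mul]
  have h1 : (19 / 10 * d) ^ 2 - (13 / 8 * d) ^ 2 = ((19 / 10) ^ 2 - (13 / 8) ^ 2) * d ^ 2 := by ring
  have h2 : (19 / 10 * d) ^ 2 - (w 0 ^ 2 + w 1 ^ 2 + w 2 ^ 2) =
      ((19 / 10) ^ 2 - ((d⁻¹ * w 0) ^ 2 + (d⁻¹ * w 1) ^ 2 + (d⁻¹ * w 2) ^ 2)) * d ^ 2 := by
    field_simp
  rw [h1, h2, mul_div_mul_right _ _ (by positivity)]

theorem nbx_pd {d : ℝ} (hd : 0 < d) (m : Fin 3) (w : R3) :
    pd m (nbF (13 / 8 * d) (19 / 10 * d)) w =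
      d⁻¹ * pd m (nbF (13 / 8) (19 / 10)) (d⁻¹ • w) := by
  have e : nbF (13 / 8 * d) (19 / 10 * d) = fun w => nbF (13 / 8) (19 / 10) (d⁻¹ • w) :=
    funext (nbx_scale hd)
  have h1 : HasFDerivAt (nbF (13 / 8) (19 / 10)) (fderiv ℝ (nbF (13 / 8) (19 / 10)) (d⁻¹ • w))
      (d⁻¹ • w) := ((nbF_cd _ _).differentiable (by simp) _).hasFDerivAt
  have h2 : HasFDerivAt (fun w : R3 => d⁻¹ • w) (d⁻¹ • ContinuousLinearMap.id ℝ R3) w :=
    (hasFDerivAt_id w).const_smul d⁻¹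
  have h3 := h1.comp w h2
  have h4 : HasFDerivAt (nbF (13 / 8 * d) (19 / 10 * d))
      ((fderiv ℝ (nbF (13 / 8) (19 / 10)) (d⁻¹ • w)).comp (d⁻¹ • ContinuousLinearMap.id ℝ R3)) w := by
    rw [e]
    exact h3
  unfold pd
  rw [h4.fderiv]
  simp

theorem nbx_Q {d : ℝ} (hd : 0 < d) :
    ∫ w, ∑ m, pd m (nbF (13 / 8 * d) (19 / 10 * d)) w ^ 2 =
      d * ∫ w, ∑ m, pd m (nbF (13 / 8) (19 / 10)) w ^ 2 := by
  have e : ∀ w : R3, ∑ m, pd m (nbF (13 / 8 * d) (19 / 10 * d)) w ^ 2 =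
      (d⁻¹) ^ 2 * (fun w => ∑ m, pd m (nbF (13 / 8) (19 / 10)) w ^ 2) (d⁻¹ • w) := by
    intro w
    simp only [nbx_pd hd, mul_pow]
    rw [Finset.mul_sum]
  simp only [e]
  rw [integral_const_mul]
  have h := Measure.integral_comp_smul (volume : Measure R3)
    (fun w => ∑ m, pd m (nbF (13 / 8) (19 / 10)) w ^ 2) d⁻¹
  rw [h]
  have hf : Module.finrank ℝ R3 = 3 := by simp
  rw [hf, smul_eq_mul, abs_of_nonneg (by positivity)]
  field_simp

theorem NBX (h1 : ST_GRD) (h2 : ST_PHA) (_h3 : ST_PHB) (h4 : ST_PHC) (h5 : ST_DEX) :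
    ST_NBX := by
  have hkap : 0 < kap := h4.2.1
  obtain ⟨Q1, hQ1⟩ : ∃ Q1, Q1 = ∫ w, ∑ m, pd m (nbF (13 / 8) (19 / 10)) w ^ 2 := ⟨_, rfl⟩
  have hQ10 : 0 ≤ Q1 := by
    rw [hQ1]
    exact integral_nonneg fun w => Finset.sum_nonneg fun m _ => sq_nonneg _
  refine ⟨2 * (1 + 1 / 2) ^ 2 + 2 * (Q1 + 1) / kap, by positivity, ?_⟩
  intro d n M X Z x hd1 hX hZ1
  have hd : 0 < d := by linarith
  have hb : 0 < d / 8 := by positivity
  have hph : ContDiff ℝ (⊤ : ℕ∞) (ph (d / 8)) := (h2 (d / 8) hb).1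
  have hr : (0 : ℝ) ≤ 13 / 8 * d := by positivity
  have hR : 13 / 8 * d < 19 / 10 * d := by nlinarith
  obtain ⟨Q, hQ⟩ : ∃ Q, Q = ∫ w, ∑ m, pd m (nbF (13 / 8 * d) (19 / 10 * d)) w ^ 2 := ⟨_, rfl⟩
  have hQd : Q = d * Q1 := by rw [hQ, hQ1, nbx_Q hd]
  have hQ0 : 0 ≤ Q := by
    rw [hQd]
    positivity
  obtain ⟨τ, hτ⟩ : ∃ τ, τ = 2 * (Q + 1) / kap := ⟨_, rfl⟩
  have hτ0 : 0 < τ := by
    rw [hτ]
    positivity
  have hτd : τ ≤ 2 * (Q1 + 1) / kap * d := by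
    rw [hτ, hQd, div_mul_eq_mul_div]
    refine div_le_div_of_nonneg_right ?_ hkap.le
    nlinarith
  obtain ⟨hS, _⟩ := h5 (d / 8) n M X Z x hb
  have hP := nb_pt_cd hph X Z x
  let B : Fin M → Set R3 := fun i => {w | nr (w - X i) < 2 * d}
  have hB : ∀ i, MeasurableSet (B i) := fun i =>
    (isOpen_lt (nb_nr_cont.comp (continuous_id.sub continuous_const))
      continuous_const).measurableSet
  have hc0 : ∀ i, 0 ≤ cnt X (3 / 2 * d) x i := by
    intro i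
    unfold cnt
    refine Finset.sum_nonneg fun k _ => ?_
    split_ifs
    · exact zero_le_one
    · exact le_rfl
  have hZz : ∀ j, Z j ≤ 1 := fun j => (hZ1 j).le
  have key : ∀ i, cnt X (3 / 2 * d) x i ^ 2 ≤ 2 * (1 + 1 / 2) ^ 2 +
      τ / kap * ∫ w, (B i).indicator (fun w => ∑ m, pd m (Pt (d / 8) X Z x) w ^ 2) w := by
    intro i
    have hF : ContDiff ℝ (⊤ : ℕ∞) (fun w => nbF (13 / 8 * d) (19 / 10 * d) (w - X i)) :=
      (nbF_cd _ _).comp (contDiff_id.sub contDiff_const)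
    have hFc := nbF_cs hr hR (X i)
    have hQi : ∫ w, ∑ m, pd m (fun w => nbF (13 / 8 * d) (19 / 10 * d) (w - X i)) w ^ 2 = Q := by
      rw [hQ, ← integral_sub_right_eq_self
        (fun w => ∑ m, pd m (nbF (13 / 8 * d) (19 / 10 * d)) w ^ 2) (X i)]
      simp only [nb_pd_sub]
    have hz0 : ∀ m, ∀ w ∉ B i,
        pd m (fun w => nbF (13 / 8 * d) (19 / 10 * d) (w - X i)) w = 0 := by
      intro m w hw
      rw [nb_pd_sub]
      have h6 : 2 * d ≤ nr (w - X i) := not_lt.1 hw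
      exact nb_pd_zero hr hR m (by nlinarith)
    have ht : 0 < τ / (cnt X (3 / 2 * d) x i + 1) := by
      have := hc0 i
      positivity
    have h7 := nb_cs hP hF hFc (hB i) hz0 hS ht
    rw [hQi] at h7
    exact nb_alg hkap (hc0 i) hQ0 hτ ((nb_low h1 h4 hd hph hX hZz x i).trans h7)
  have hsum : ∑ i, ∫ w, (B i).indicator (fun w => ∑ m, pd m (Pt (d / 8) X Z x) w ^ 2) w ≤
      kap * Dn (d / 8) X Z x := by
    have e1 : kap * Dn (d / 8) X Z x = ∫ w, ∑ m, pd m (Pt (d / 8) X Z x) w ^ 2 := by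
      unfold Dn
      rw [← mul_assoc, mul_one_div_cancel hkap.ne', one_mul]
    rw [e1, ← integral_finsetSum _ fun i _ => hS.indicator (hB i)]
    refine integral_mono (integrable_finsetSum _ fun i _ => hS.indicator (hB i)) hS fun w => ?_
    show ∑ i, (B i).indicator (fun w => ∑ m, pd m (Pt (d / 8) X Z x) w ^ 2) w ≤
      ∑ m, pd m (Pt (d / 8) X Z x) w ^ 2
    have hnn : 0 ≤ ∑ m, pd m (Pt (d / 8) X Z x) w ^ 2 := Finset.sum_nonneg fun m _ => sq_nonneg _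
    by_cases hw : ∃ i, w ∈ B i
    · obtain ⟨i, hi⟩ := hw
      rw [Finset.sum_eq_single i ?_ (fun h => absurd (Finset.mem_univ i) h)]
      · rw [Set.indicator_of_mem hi]
      · intro j _ hj
        refine Set.indicator_of_notMem (fun hjw => ?_) _
        have g1 : nr (w - X i) < 2 * d := hi
        have g2 : nr (w - X j) < 2 * d := hjw
        have g3 := hX j i hj
        have g4 := nb_tri (X j) w (X i)
        rw [nb_nr_comm (X j) w] at g4
        linarith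
    · rw [Finset.sum_eq_zero fun i _ => Set.indicator_of_notMem (fun h => hw ⟨i, h⟩) _]
      exact hnn
  have hD : 0 ≤ Dn (d / 8) X Z x := by
    unfold Dn
    exact mul_nonneg (by positivity)
      (integral_nonneg fun w => Finset.sum_nonneg fun m _ => sq_nonneg _)
  calc ∑ i, cnt X (3 / 2 * d) x i ^ 2
      ≤ ∑ i, (2 * (1 + 1 / 2) ^ 2 +
        τ / kap * ∫ w, (B i).indicator (fun w => ∑ m, pd m (Pt (d / 8) X Z x) w ^ 2) w) :=
        Finset.sum_le_sum fun i _ => key i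
    _ = 2 * (1 + 1 / 2) ^ 2 * M + τ / kap *
        ∑ i, ∫ w, (B i).indicator (fun w => ∑ m, pd m (Pt (d / 8) X Z x) w ^ 2) w := by
        rw [Finset.sum_add_distrib, Finset.mul_sum, Finset.sum_const, Finset.card_univ,
          Fintype.card_fin, nsmul_eq_mul, mul_comm (M : ℝ)]
    _ ≤ 2 * (1 + 1 / 2) ^ 2 * M + τ / kap * (kap * Dn (d / 8) X Z x) := by
        have := mul_le_mul_of_nonneg_left hsum (show 0 ≤ τ / kap by positivity)
        linarith
    _ = 2 * (1 + 1 / 2) ^ 2 * M + τ * Dn (d / 8) X Z x := by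
        field_simp
    _ ≤ 2 * (1 + 1 / 2) ^ 2 * M + 2 * (Q1 + 1) / kap * d * Dn (d / 8) X Z x := by
        have := mul_le_mul_of_nonneg_right hτd hD
        linarith
    _ ≤ (2 * (1 + 1 / 2) ^ 2 + 2 * (Q1 + 1) / kap) * (M + d * Dn (d / 8) X Z x) := by
        have hM : (0 : ℝ) ≤ M := Nat.cast_nonneg M
        have g1 : 0 ≤ 2 * (1 + 1 / 2) ^ 2 * (d * Dn (d / 8) X Z x) := by positivity
        have g2 : 0 ≤ 2 * (Q1 + 1) / kap * (M : ℝ) := by positivity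
        have g3 : (2 * (1 + 1 / 2) ^ 2 + 2 * (Q1 + 1) / kap) * (M + d * Dn (d / 8) X Z x) =
            2 * (1 + 1 / 2) ^ 2 * M + 2 * (Q1 + 1) / kap * d * Dn (d / 8) X Z x +
            2 * (1 + 1 / 2) ^ 2 * (d * Dn (d / 8) X Z x) + 2 * (Q1 + 1) / kap * (M : ℝ) := by
          ring
        rw [g3]
        linarith

end Pool.Agent.Helper47.HS
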